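import Pool.Agent.H547_q.Mean

/-!
# Tate's conjecture on the pole for products of diagonal hypersurfaces, up to a bounded factor

Let `k` be any number field (for example `ℚ`), and let `X` be any product of diagonal hypersurfaces

  `c_0 (x_0 ^ d - y_0 ^ d) + ... + c_h (x_h ^ d - y_h ^ d) = 0`,   `c_l ∈ k^*`,

of any even dimensions `2 h` and of any degrees `d` dividing `m` (`X` with the restriction of the base
is a variety over `ℚ`, with the same cycles and the same `L`-function). Let `r` be the number of the odd
prime divisors of `m`, plus one if `4` divides `m`, and `C = 2 ^ (2 ^ (r - 1) - 1)`.

**Theorem.** The order of the pole of `L(H^{2 i}(X), s)` at `s = i + 1` is at most `C` times the rank of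
the group `B^i(X)` of the algebraic cycles of codimension `i` over `k` modulo homological equivalence,
for all `i`. (It is at least the rank, so Tate's conjecture holds up to the factor `C`, and it holds if
`r ≤ 1`.) The factor does not depend on the field, on the coefficients, on the dimensions, on the number
of the factors and on the exponents of the prime numbers in `m`; for `r = 2` it is `2`. More generally
the multiplicity in `H^{2 i}(X)(i)` of every one-dimensional representation of the Galois group of `k`
is at most `C` times the rank of `B^i(X)`: this bounds the orders of the poles at the edge of all twists
of the `L`-function by Hecke characters.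

This concerns the Tate classes over a fixed number field, for example over `ℚ`, and not only over large
extensions. It follows from an inequality for all Frobenius elements:

**Trace inequality.** For every prime `v` of good reduction the absolute value of the trace of the
Frobenius at `v` on the part of `H^{2 i}(X)(i)` with a given Hodge type (for the type zero: on the space
of all Hodge classes) is at most `C` times its trace on the span of the classes which are known to be
algebraic.

*Proof.* By Weil the trace of the Frobenius on the line of a basis vector `b` is a product of
normalized Gauss sums `- g(χ_a) χ_a(c)⁻¹ / √q`, one for each variable. The value for `a` and `c` and the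
value for `- a` and `- c` are complex conjugate. So the line of the tuple consisting of `x` (for the
variables `x_l`) and of `- z` (for the variables `y_l`) has the trace `Θ(x) conj(Θ(z))`. The cohomology
is graded by the quotient of the universal odd distribution by the known algebraic characters, and this
grading is additive in `x` and `- z`. So the trace on the part of degree `e` is
`∑ S_g conj(S_(g - e))`, for the partial sums `S_g` of `Θ`, and the trace on the part of degree zero,
which is spanned by the known algebraic classes, is `∑ |S_g| ^ 2`. The degrees `e` which belong to one
Hodge type form a coset of the torsion subgroup, which has at most `C` elements.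

*The hypotheses in Lean.* The `L`-functions are given for real `s > 1` (that is `s + i` in place of `s`)
up to bounded factors, by the traces of the Frobenius elements at the primes of good reduction;
`χ` is a family of numbers of absolute value at most one, for instance `1` or a unitary Hecke character
(with zero at the bad primes). The hypothesis `HasPole Lnon 0` is the theorem of Hecke for the basis
vectors of other Hodge types than the one of the inverse of `χ` (type zero for `χ = 1`): they give
nontrivial Hecke characters, by the theorems of Weil and Stickelberger. The span of the known algebraic
classes is an Artin representation, so the order `N'` of the pole of its `L`-function is the dimension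
of its Galois invariants, which is the rank of the group of algebraic cycles over `k` in this part, and
`N'` is at most the rank of `B^i(X)`. The known classes are algebraic by Lefschetz (surfaces), Aoki and
Shioda (standard characters), and by the inductive structure of Fermat varieties (Shioda and Katsura).
-/

set_option autoImplicit false

namespace Pool.Agent.Results.MP_058a58_ag.DiagonalFactor

open NumberField IsDedekindDomain Pool.Agent.H547_q

/-- **Tate's conjecture on the pole of the `L`-function for products of diagonal hypersurfaces over
number fields, up to a factor which depends only on the number of the prime divisors of the degree.** -/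
theorem result (k : Type) [Field k] [NumberField k] (m : ℕ) [NeZero m] (X : DiagonalProduct k m)
    (R : ∀ v, Reduction k v) (i : ℕ) :
    -- the Hodge classes are the basis vectors of type zero
    (∀ b : Element X, IsBasis i b → (IsHodgeElement b ↔ hodgeType b = 0)) ∧
    -- the trace of the Frobenius on the part with a given Hodge type and on the known algebraic classes
    (∀ (u : (ZMod m)ˣ → ℤ) (v : HeightOneSpectrum (𝓞 k)),
      ‖trace X R i (fun b => hodgeType b = u) v‖ ≤
        2 ^ (2 ^ (rank m - 1) - 1) * (trace X R i (fun b => IsHodgeElement b ∧ IsKnown b) v).re) ∧
    -- the orders of the poles of the twisted `L`-functions of the cohomology and of the part spanned by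
    -- the known algebraic classes
    ∀ (χ : HeightOneSpectrum (𝓞 k) → ℂ) (u : (ZMod m)ˣ → ℤ) (L Lnon Lknown : ℝ → ℝ) (N N' : ℤ),
      (∀ v, ‖χ v‖ ≤ 1) →
      IsLFunction (fun v => trace X R i (fun _ => True) v * χ v) L →
      IsLFunction (fun v => trace X R i (fun b => hodgeType b ≠ u) v * χ v) Lnon →
      IsLFunction (trace X R i fun b => IsHodgeElement b ∧ IsKnown b) Lknown →
      HasPole Lnon 0 → HasPole L N → HasPole Lknown N' →
        N ≤ 2 ^ (2 ^ (rank m - 1) - 1) * N' := by
  refine ⟨fun b hb => by rw [hodge_iff hb, hodgeType_eq hb], fun u v => type_le_known X R i u v, ?_⟩
  intro χ u L Lnon Lknown N N' hχ hL hLn hLg hNn hN hNg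
  have hle : ∀ (P : Element X → Prop) v, ‖trace X R i P v * χ v‖ ≤ ‖trace X R i P v‖ := by
    intro P v
    rw [norm_mul]
    exact mul_le_of_le_one_right (norm_nonneg _) (hχ v)
  have h := pole_le (t := fun v => trace X R i (fun _ => True) v * χ v)
    (f := fun v => trace X R i (fun b => hodgeType b = u) v * χ v)
    (n := fun v => trace X R i (fun b => hodgeType b ≠ u) v * χ v)
    (fun v => by rw [trace_add X R i (fun b => hodgeType b = u) v, add_mul])
    (fun v => (hle _ v).trans (type_le_known X R i u v))
    (fun v => (hle _ v).trans (norm_trace_le X R i _ v))
    (fun v => (hle _ v).trans (norm_trace_le X R i _ v))
    (norm_trace_le X R i _) hL hLn hLg hN hNn hNg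
  exact_mod_cast h

end Pool.Agent.Results.MP_058a58_ag.DiagonalFactor
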